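import Mathlib

/-!
# A strictly increasing continuous function which is nearly flat at infinitely many scales
-/

open Filter Topology Set

namespace Pool.Agent.Q210.RJ

noncomputable section

/-- Clamp to `[0,1]`. -/
def cl (x : ℝ) : ℝ := max 0 (min 1 x)

theorem cl_nonneg (x : ℝ) : 0 ≤ cl x := le_max_left _ _

theorem cl_le_one (x : ℝ) : cl x ≤ 1 := max_le zero_le_one (min_le_left _ _)

theorem cl_mono : Monotone cl := fun _ _ h => max_le_max_left _ (min_le_min_left _ h)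

theorem cl_of_one_le {x : ℝ} (h : 1 ≤ x) : cl x = 1 := by
  unfold cl; rw [min_eq_left h, max_eq_right zero_le_one]

theorem cl_of_nonpos {x : ℝ} (h : x ≤ 0) : cl x = 0 := by
  unfold cl; rw [min_eq_right (h.trans zero_le_one), max_eq_left h]

theorem cl_cont : Continuous cl := by unfold cl; fun_prop

/-- The staircase-like function. -/
def st (m : ℕ) (t : ℝ) : ℝ := (∑ i ∈ Finset.range m, cl ((m : ℝ) ^ 2 * t - m * i)) / m

theorem st_cont (m : ℕ) : Continuous (st m) := by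
  unfold st
  refine Continuous.div_const ?_ _
  exact continuous_finsetSum _ fun i _ => cl_cont.comp (by fun_prop)

theorem st_mono (m : ℕ) : Monotone (st m) := by
  intro s t h
  unfold st
  refine div_le_div_of_nonneg_right ?_ (Nat.cast_nonneg m)
  refine Finset.sum_le_sum fun i _ => cl_mono ?_
  have : (m : ℝ) ^ 2 * s ≤ (m : ℝ) ^ 2 * t := mul_le_mul_of_nonneg_left h (sq_nonneg _)
  linarith

theorem st_nonneg (m : ℕ) (t : ℝ) : 0 ≤ st m t :=
  div_nonneg (Finset.sum_nonneg fun _ _ => cl_nonneg _) (Nat.cast_nonneg m)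

theorem st_le_one (m : ℕ) (t : ℝ) : st m t ≤ 1 := by
  unfold st
  rcases Nat.eq_zero_or_pos m with h | h
  · subst h; simp
  · have hm : (0 : ℝ) < m := by exact_mod_cast h
    rw [div_le_one hm]
    calc ∑ i ∈ Finset.range m, cl ((m : ℝ) ^ 2 * t - m * i) ≤ ∑ i ∈ Finset.range m, (1 : ℝ) :=
          Finset.sum_le_sum fun _ _ => cl_le_one _
      _ = m := by simp

theorem st_flat {m i : ℕ} (hm : 0 < m) :
    st m ((i : ℝ) / m + 1 / (m : ℝ) ^ 2) = st m (((i : ℝ) + 1) / m) := by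
  have hm0 : (0 : ℝ) < m := by exact_mod_cast hm
  have hm1 : (1 : ℝ) ≤ m := by exact_mod_cast hm
  unfold st
  congr 1
  refine Finset.sum_congr rfl fun j _ => ?_
  have e1 : (m : ℝ) ^ 2 * ((i : ℝ) / m + 1 / (m : ℝ) ^ 2) - m * j = m * ((i : ℝ) - j) + 1 := by
    field_simp
    ring
  have e2 : (m : ℝ) ^ 2 * (((i : ℝ) + 1) / m) - m * j = m * ((i : ℝ) + 1 - j) := by
    field_simp
  rw [e1, e2]
  rcases le_or_gt j i with h | h
  · have h' : (j : ℝ) ≤ i := by exact_mod_cast h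
    rw [cl_of_one_le, cl_of_one_le]
    · nlinarith
    · have := mul_nonneg hm0.le (sub_nonneg.mpr h')
      linarith
  · have h' : (i : ℝ) + 1 ≤ j := by exact_mod_cast h
    rw [cl_of_nonpos, cl_of_nonpos]
    · nlinarith
    · nlinarith

theorem st_close {m : ℕ} (hm : 0 < m) {t : ℝ} (h0 : 0 ≤ t) (h1 : t ≤ 1) :
    |st m t - t| ≤ 1 / m := by
  have hm0 : (0 : ℝ) < m := by exact_mod_cast hm
  have hm1 : (1 : ℝ) ≤ m := by exact_mod_cast hm
  set i := ⌊(m : ℝ) * t⌋₊ with hi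
  have hi1 : (i : ℝ) ≤ m * t := Nat.floor_le (by positivity)
  have hi2 : (m : ℝ) * t < i + 1 := Nat.lt_floor_add_one _
  have him : i ≤ m := by
    have : (i : ℝ) ≤ m := by nlinarith
    exact_mod_cast this
  have hlo : (i : ℝ) ≤ ∑ j ∈ Finset.range m, cl ((m : ℝ) ^ 2 * t - m * j) := by
    calc (i : ℝ) = ∑ j ∈ Finset.range i, (1 : ℝ) := by simp
      _ ≤ ∑ j ∈ Finset.range i, cl ((m : ℝ) ^ 2 * t - m * j) := by
          refine Finset.sum_le_sum fun j hj => ?_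
          rw [Finset.mem_range] at hj
          have hj' : (j : ℝ) + 1 ≤ i := by exact_mod_cast hj
          rw [cl_of_one_le]
          nlinarith
      _ ≤ _ := Finset.sum_le_sum_of_subset_of_nonneg
          (Finset.range_subset_range.mpr him) fun _ _ _ => cl_nonneg _
  have hhi : ∑ j ∈ Finset.range m, cl ((m : ℝ) ^ 2 * t - m * j) ≤ i + 1 := by
    calc ∑ j ∈ Finset.range m, cl ((m : ℝ) ^ 2 * t - m * j) ≤
        ∑ j ∈ Finset.range m, (if j ∈ Finset.range (i + 1) then (1 : ℝ) else 0) := by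
          refine Finset.sum_le_sum fun j _ => ?_
          split_ifs with h
          · exact cl_le_one _
          · rw [Finset.mem_range, not_lt] at h
            have hj' : (i : ℝ) + 1 ≤ j := by exact_mod_cast h
            rw [cl_of_nonpos]
            nlinarith
      _ = ((Finset.range m ∩ Finset.range (i + 1)).card : ℝ) := by
          rw [Finset.sum_ite_mem]; simp
      _ ≤ ((Finset.range (i + 1)).card : ℝ) := by
          exact_mod_cast Finset.card_le_card Finset.inter_subset_right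
      _ = i + 1 := by simp
  have e : st m t - t = ((∑ j ∈ Finset.range m, cl ((m : ℝ) ^ 2 * t - m * j)) - m * t) / m := by
    unfold st; field_simp
  rw [e, abs_div, abs_of_pos hm0]
  refine div_le_div_of_nonneg_right ?_ hm0.le
  rw [abs_le]
  constructor <;> linarith

/-- The space of nondecreasing continuous functions with values in `[0,1]`. -/
def Mon : Set C(Icc (0 : ℝ) 1, ℝ) := {V | Monotone V ∧ ∀ x, V x ∈ Icc (0 : ℝ) 1}

theorem isClosed_Mon : IsClosed Mon := by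
  have : Mon = (⋂ (x : Icc (0 : ℝ) 1) (y : Icc (0 : ℝ) 1) (_ : x ≤ y), {V : C(Icc (0 : ℝ) 1, ℝ) |
      V x ≤ V y}) ∩ ⋂ x : Icc (0 : ℝ) 1, {V : C(Icc (0 : ℝ) 1, ℝ) | V x ∈ Icc (0 : ℝ) 1} := by
    ext V
    simp only [Mon, mem_inter_iff, mem_iInter]
    exact Iff.rfl
  rw [this]
  refine IsClosed.inter ?_ ?_
  · refine isClosed_iInter fun x => isClosed_iInter fun y => isClosed_iInter fun _ => ?_
    exact isClosed_le (continuous_eval_const x) (continuous_eval_const y)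
  · refine isClosed_iInter fun x => ?_
    exact isClosed_Icc.preimage (continuous_eval_const x)

instance : CompleteSpace Mon := isClosed_Mon.completeSpace_coe

/-- Evaluation at a real number. -/
def ev (V : C(Icc (0 : ℝ) 1, ℝ)) (x : ℝ) : ℝ := V (projIcc 0 1 zero_le_one x)

theorem ev_cont (x : ℝ) : Continuous fun V : Mon => ev V x :=
  (continuous_eval_const _).comp continuous_subtype_val

/-- Nearly flat at some scale past `M`. -/
def OM (ε : ℕ → ℝ) (M : ℕ) : Set Mon :=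
  ⋃ m ∈ {m : ℕ | M ≤ m ∧ 0 < m}, ⋂ i : Fin m,
    {V : Mon | ev V (((i : ℕ) + 1 : ℝ) / m) - ev V (((i : ℕ) : ℝ) / m + 1 / (m : ℝ) ^ 2) < ε m}

theorem OM_open (ε : ℕ → ℝ) (M : ℕ) : IsOpen (OM ε M) := by
  refine isOpen_iUnion fun m => isOpen_iUnion fun _ => isOpen_iInter_of_finite fun i => ?_
  exact isOpen_lt ((ev_cont _).sub (ev_cont _)) continuous_const

/-- The flattened function. -/
def comp (V : C(Icc (0 : ℝ) 1, ℝ)) (m : ℕ) : C(Icc (0 : ℝ) 1, ℝ) :=
  ⟨fun x => V ⟨st m x, st_nonneg m x, st_le_one m x⟩,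
    V.continuous.comp (Continuous.subtype_mk ((st_cont m).comp continuous_subtype_val) _)⟩

theorem comp_mem {V : C(Icc (0 : ℝ) 1, ℝ)} (hV : V ∈ Mon) (m : ℕ) : comp V m ∈ Mon :=
  ⟨fun _ _ h => hV.1 (st_mono m h), fun _ => hV.2 _⟩

theorem comp_flat (V : C(Icc (0 : ℝ) 1, ℝ)) {m i : ℕ} (hi : i < m) :
    ev (comp V m) (((i : ℕ) + 1 : ℝ) / m) = ev (comp V m) ((i : ℝ) / m + 1 / (m : ℝ) ^ 2) := by
  have hm : 0 < m := by omega
  have hm0 : (0 : ℝ) < m := by exact_mod_cast hm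
  have hm1 : (1 : ℝ) ≤ m := by exact_mod_cast hm
  have hi' : (i : ℝ) + 1 ≤ m := by exact_mod_cast hi
  have h1 : ((i : ℝ) + 1) / m ∈ Icc (0 : ℝ) 1 :=
    ⟨by positivity, by rw [div_le_one hm0]; exact hi'⟩
  have h2 : (i : ℝ) / m + 1 / (m : ℝ) ^ 2 ∈ Icc (0 : ℝ) 1 := by
    refine ⟨by positivity, le_trans ?_ h1.2⟩
    rw [add_div]
    have : 1 / (m : ℝ) ^ 2 ≤ 1 / m := by
      apply one_div_le_one_div_of_le hm0
      nlinarith
    linarith
  unfold ev
  rw [projIcc_of_mem _ h1, projIcc_of_mem _ h2]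
  show V _ = V _
  congr 1
  exact Subtype.ext (st_flat hm).symm

theorem OM_dense {ε : ℕ → ℝ} (hε : ∀ m, 0 < ε m) (M : ℕ) : Dense (OM ε M) := by
  rw [Metric.dense_iff]
  intro V r hr
  have hu : UniformContinuous V.1 := CompactSpace.uniformContinuous_of_continuous V.1.continuous
  obtain ⟨δ, hδ, hd⟩ := Metric.uniformContinuous_iff.mp hu (r / 2) (by positivity)
  obtain ⟨m, hm1, hm2⟩ : ∃ m : ℕ, M ≤ m ∧ 0 < m ∧ (1 : ℝ) / m < δ := by
    obtain ⟨n, hn⟩ := exists_nat_gt (1 / δ)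
    refine ⟨max (max M 1) n, le_trans (le_max_left _ _) (le_max_left _ _),
      lt_of_lt_of_le one_pos (le_trans (le_max_right _ _) (le_max_left _ _)), ?_⟩
    have h1 : 1 / δ < ((max (max M 1) n : ℕ) : ℝ) := lt_of_lt_of_le hn
      (by exact_mod_cast le_max_right _ _)
    have h0 : (0 : ℝ) < ((max (max M 1) n : ℕ) : ℝ) := lt_trans (by positivity) h1
    rw [div_lt_iff₀ hδ] at h1
    rw [div_lt_iff₀ h0]
    linarith
  refine ⟨⟨comp V.1 m, comp_mem V.2 m⟩, ?_, ?_⟩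
  · rw [Metric.mem_ball]
    show dist (comp V.1 m) V.1 < r
    refine lt_of_le_of_lt ((ContinuousMap.dist_le (by positivity)).mpr fun x => ?_)
      (half_lt_self hr)
    show dist (V.1 ⟨st m x, st_nonneg m x, st_le_one m x⟩) (V.1 x) ≤ r / 2
    refine (hd ?_).le
    show |st m x - x| < δ
    exact lt_of_le_of_lt (st_close hm2.1 x.2.1 x.2.2) hm2.2
  · refine mem_iUnion₂.mpr ⟨m, ⟨hm1, hm2.1⟩, mem_iInter.mpr fun i => ?_⟩
    show ev (comp V.1 m) _ - ev (comp V.1 m) _ < ε m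
    rw [comp_flat V.1 i.2, sub_self]
    exact hε m

/-- Strict increase between two points. -/
def US (x y : Icc (0 : ℝ) 1) : Set Mon := {V : Mon | V.1 x < V.1 y}

theorem US_open (x y : Icc (0 : ℝ) 1) : IsOpen (US x y) :=
  isOpen_lt ((continuous_eval_const _).comp continuous_subtype_val)
    ((continuous_eval_const _).comp continuous_subtype_val)

theorem US_dense {x y : Icc (0 : ℝ) 1} (hxy : x < y) : Dense (US x y) := by
  rw [Metric.dense_iff]
  intro V r hr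
  set s : ℝ := min (r / 2) 1 with hs
  have hs0 : 0 < s := lt_min (by positivity) one_pos
  have hs1 : s ≤ 1 := min_le_right _ _
  have hsr : s ≤ r / 2 := min_le_left _ _
  set W : C(Icc (0 : ℝ) 1, ℝ) := ⟨fun x => (1 - s) * V.1 x + s * x, by fun_prop⟩ with hW
  have hWm : W ∈ Mon := by
    constructor
    · intro a b hab
      have h1 := V.2.1 hab
      have h2 : (a : ℝ) ≤ b := hab
      show (1 - s) * V.1 a + s * a ≤ (1 - s) * V.1 b + s * b
      have := mul_le_mul_of_nonneg_left h1 (sub_nonneg.mpr hs1)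
      have := mul_le_mul_of_nonneg_left h2 hs0.le
      linarith
    · intro a
      obtain ⟨h1, h2⟩ := V.2.2 a
      obtain ⟨h3, h4⟩ := a.2
      show 0 ≤ (1 - s) * V.1 a + s * a ∧ (1 - s) * V.1 a + s * a ≤ 1
      have := mul_nonneg (sub_nonneg.mpr hs1) h1
      have := mul_nonneg hs0.le h3
      have := mul_le_mul_of_nonneg_left h2 (sub_nonneg.mpr hs1)
      have := mul_le_mul_of_nonneg_left h4 hs0.le
      constructor <;> linarith
  refine ⟨⟨W, hWm⟩, ?_, ?_⟩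
  · rw [Metric.mem_ball]
    show dist W V.1 < r
    refine lt_of_le_of_lt ((ContinuousMap.dist_le (by positivity)).mpr fun a => ?_)
      (half_lt_self hr)
    obtain ⟨h1, h2⟩ := V.2.2 a
    obtain ⟨h3, h4⟩ := a.2
    show |(1 - s) * V.1 a + s * a - V.1 a| ≤ r / 2
    have e : (1 - s) * V.1 a + s * a - V.1 a = s * (a - V.1 a) := by ring
    rw [e, abs_mul, abs_of_pos hs0]
    have h5 : |(a : ℝ) - V.1 a| ≤ 1 := by rw [abs_le]; constructor <;> linarith
    have := mul_le_mul_of_nonneg_left h5 hs0.le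
    linarith
  · show (1 - s) * V.1 x + s * x < (1 - s) * V.1 y + s * y
    have h1 := V.2.1 hxy.le
    have h2 : (x : ℝ) < y := hxy
    have := mul_le_mul_of_nonneg_left h1 (sub_nonneg.mpr hs1)
    have := mul_lt_mul_of_pos_left h2 hs0
    linarith

/-- Existence of the time change. -/
theorem exists_flat {ε : ℕ → ℝ} (hε : ∀ m, 0 < ε m) : ∃ V : ℝ → ℝ,
    ContinuousOn V (Icc 0 1) ∧ StrictMonoOn V (Icc 0 1) ∧ (∀ t ∈ Icc (0 : ℝ) 1, V t ∈ Icc (0 : ℝ) 1) ∧
    ∀ M : ℕ, ∃ m : ℕ, M ≤ m ∧ 0 < m ∧ ∀ i : ℕ, i < m →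
      V (((i : ℝ) + 1) / m) - V ((i : ℝ) / m + 1 / (m : ℝ) ^ 2) < ε m := by
  have h0 : (0 : C(Icc (0 : ℝ) 1, ℝ)) ∈ Mon := ⟨fun _ _ _ => le_rfl, fun _ => ⟨le_rfl, zero_le_one⟩⟩
  have : Nonempty Mon := ⟨⟨0, h0⟩⟩
  let J := {z : ℚ × ℚ // (z.1 : ℝ) ∈ Icc (0 : ℝ) 1 ∧ (z.2 : ℝ) ∈ Icc (0 : ℝ) 1 ∧ z.1 < z.2}
  let f : ℕ ⊕ J → Set Mon := Sum.elim (OM ε) fun z => US ⟨z.1.1, z.2.1⟩ ⟨z.1.2, z.2.2.1⟩
  have hd : Dense (⋂ s, f s) := by
    refine dense_iInter_of_isOpen ?_ ?_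
    · rintro (M | z)
      · exact OM_open ε M
      · exact US_open _ _
    · rintro (M | z)
      · exact OM_dense hε M
      · exact US_dense (show ((z.1.1 : ℚ) : ℝ) < (z.1.2 : ℚ) by exact_mod_cast z.2.2.2)
  obtain ⟨V, hV⟩ := hd.nonempty
  have hM : ∀ M, V ∈ OM ε M := fun M => mem_iInter.mp hV (Sum.inl M)
  have hU : ∀ z : J, V ∈ US ⟨z.1.1, z.2.1⟩ ⟨z.1.2, z.2.2.1⟩ := fun z => mem_iInter.mp hV (Sum.inr z)
  refine ⟨ev V.1, ?_, ?_, ?_, ?_⟩
  · exact (V.1.continuous.comp continuous_projIcc).continuousOn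
  · intro s hs t ht hst
    obtain ⟨p, hp1, hp2⟩ := exists_rat_btwn hst
    obtain ⟨q, hq1, hq2⟩ := exists_rat_btwn hp2
    have hp : (p : ℝ) ∈ Icc (0 : ℝ) 1 := ⟨hs.1.trans hp1.le, hp2.le.trans ht.2⟩
    have hq : (q : ℝ) ∈ Icc (0 : ℝ) 1 := ⟨hp.1.trans hq1.le, hq2.le.trans ht.2⟩
    have h1 : V.1 ⟨p, hp⟩ < V.1 ⟨q, hq⟩ := hU ⟨(p, q), hp, hq, by exact_mod_cast hq1⟩
    have h2 : V.1 ⟨s, hs⟩ ≤ V.1 ⟨p, hp⟩ := V.2.1 (show s ≤ p from hp1.le)
    have h3 : V.1 ⟨q, hq⟩ ≤ V.1 ⟨t, ht⟩ := V.2.1 (show (q : ℝ) ≤ t from hq2.le)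
    unfold ev
    rw [projIcc_of_mem _ hs, projIcc_of_mem _ ht]
    exact lt_of_le_of_lt h2 (lt_of_lt_of_le h1 h3)
  · intro t _
    exact V.2.2 _
  · intro M
    obtain ⟨m, ⟨hm1, hm2⟩, h⟩ := mem_iUnion₂.mp (hM M)
    refine ⟨m, hm1, hm2, fun i hi => ?_⟩
    exact mem_iInter.mp h ⟨i, hi⟩

end

end Pool.Agent.Q210.RJ
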