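import Mathlib

/-!
# Nearly flat graphs support no Rajchman measure
-/

open Filter Topology Set MeasureTheory
open scoped NNReal

namespace Pool.Agent.Q210.RJ

noncomputable section

/-- The Fourier transform of a measure on the plane. -/
def hat (μ : Measure (ℝ × ℝ)) (ξ : ℝ × ℝ) : ℂ :=
  ∫ x, Complex.exp (Complex.I * ((-(2 * Real.pi * (ξ.1 * x.1 + ξ.2 * x.2)) : ℝ) : ℂ)) ∂μ

/-- Simultaneous approximation. -/
theorem dirichlet (m N : ℕ) (hN : 0 < N) (c : Fin m → ℝ) :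
    ∃ q : ℕ, 1 ≤ q ∧ q ≤ N ^ m ∧ ∀ i, ∃ z : ℤ, |(q : ℝ) * c i - z| ≤ 1 / N := by
  have hN0 : (0 : ℝ) < N := by exact_mod_cast hN
  have hf : ∀ (q : ℕ) (i : Fin m), ⌊(N : ℝ) * Int.fract ((q : ℝ) * c i)⌋₊ < N := by
    intro q i
    rw [Nat.floor_lt (by positivity)]
    have := Int.fract_lt_one ((q : ℝ) * c i)
    nlinarith
  obtain ⟨q, q', hne, he⟩ := Fintype.exists_ne_map_eq_of_card_lt
    (fun (q : Fin (N ^ m + 1)) (i : Fin m) =>
      (⟨⌊(N : ℝ) * Int.fract (((q : ℕ) : ℝ) * c i)⌋₊, hf q i⟩ : Fin N)) (by simp)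
  wlog hlt : q < q' generalizing q q'
  · exact this q' q hne.symm he.symm (lt_of_le_of_ne (not_lt.mp hlt) hne.symm)
  have hlt' : (q : ℕ) < q' := hlt
  refine ⟨q' - q, by omega, by have := q'.2; omega, fun i => ?_⟩
  have h1 : ⌊(N : ℝ) * Int.fract (((q : ℕ) : ℝ) * c i)⌋₊ =
      ⌊(N : ℝ) * Int.fract (((q' : ℕ) : ℝ) * c i)⌋₊ := congrArg Fin.val (congrFun he i)
  refine ⟨⌊((q' : ℕ) : ℝ) * c i⌋ - ⌊((q : ℕ) : ℝ) * c i⌋, ?_⟩
  have e1 := Int.self_sub_floor (((q' : ℕ) : ℝ) * c i)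
  have e2 := Int.self_sub_floor (((q : ℕ) : ℝ) * c i)
  have e3 : (((q' : ℕ) - (q : ℕ) : ℕ) : ℝ) = ((q' : ℕ) : ℝ) - ((q : ℕ) : ℝ) :=
    Nat.cast_sub hlt'.le
  rw [e3]
  push_cast
  have e4 : (((q' : ℕ) : ℝ) - ((q : ℕ) : ℝ)) * c i -
      ((⌊((q' : ℕ) : ℝ) * c i⌋ : ℝ) - (⌊((q : ℕ) : ℝ) * c i⌋ : ℝ)) =
      Int.fract (((q' : ℕ) : ℝ) * c i) - Int.fract (((q : ℕ) : ℝ) * c i) := by
    rw [← e1, ← e2]; ring
  rw [e4]
  have f1 := Nat.floor_le (show 0 ≤ (N : ℝ) * Int.fract (((q : ℕ) : ℝ) * c i) from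
    mul_nonneg hN0.le (Int.fract_nonneg _))
  have f2 := Nat.lt_floor_add_one ((N : ℝ) * Int.fract (((q : ℕ) : ℝ) * c i))
  have f3 := Nat.floor_le (show 0 ≤ (N : ℝ) * Int.fract (((q' : ℕ) : ℝ) * c i) from
    mul_nonneg hN0.le (Int.fract_nonneg _))
  have f4 := Nat.lt_floor_add_one ((N : ℝ) * Int.fract (((q' : ℕ) : ℝ) * c i))
  rw [h1] at f1 f2
  rw [le_div_iff₀ hN0]
  have e5 : |Int.fract (((q' : ℕ) : ℝ) * c i) - Int.fract (((q : ℕ) : ℝ) * c i)| * N =
      |(Int.fract (((q' : ℕ) : ℝ) * c i) - Int.fract (((q : ℕ) : ℝ) * c i)) * N| := by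
    rw [abs_mul, abs_of_pos hN0]
  rw [e5, abs_le]
  constructor <;> nlinarith

/-- The part of the plane near the grid of mesh `1/m`. -/
def E (m : ℕ) : Set (ℝ × ℝ) :=
  ⋃ i : ℕ, {p : ℝ × ℝ | p.1 ∈ Icc ((i : ℝ) / m) ((i : ℝ) / m + 1 / (m : ℝ) ^ 2)}

theorem E_meas (m : ℕ) : MeasurableSet (E m) :=
  MeasurableSet.iUnion fun _ => measurableSet_Icc.preimage measurable_fst

theorem norm_e (x : ℝ) : ‖Complex.exp (Complex.I * (x : ℂ))‖ = 1 := by
  rw [mul_comm]; exact Complex.norm_exp_ofReal_mul_I x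

theorem e_int (μ : Measure (ℝ × ℝ)) [IsFiniteMeasure μ] (ξ : ℝ × ℝ) :
    Integrable (fun x : ℝ × ℝ =>
      Complex.exp (Complex.I * ((-(2 * Real.pi * (ξ.1 * x.1 + ξ.2 * x.2)) : ℝ) : ℂ))) μ := by
  refine Integrable.of_bound ?_ 1 (ae_of_all _ fun x => (norm_e _).le)
  exact Continuous.aestronglyMeasurable (by fun_prop)

theorem cos_int (μ : Measure (ℝ × ℝ)) [IsFiniteMeasure μ] (r : ℝ) :
    Integrable (fun x : ℝ × ℝ => Real.cos (2 * Real.pi * (r * x.1))) μ := by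
  refine Integrable.of_bound ?_ 1 (ae_of_all _ fun x => ?_)
  · exact Continuous.aestronglyMeasurable (by fun_prop)
  · exact Real.abs_cos_le_one _

theorem cos_le_hat (μ : Measure (ℝ × ℝ)) [IsFiniteMeasure μ] (r : ℝ) :
    ∫ x, Real.cos (2 * Real.pi * (r * x.1)) ∂μ ≤ ‖hat μ (r, 0)‖ := by
  have h1 : ∫ x : ℝ × ℝ, Real.cos (2 * Real.pi * (r * x.1)) ∂μ = RCLike.re (hat μ (r, 0)) := by
    unfold hat
    rw [← integral_re (e_int μ (r, 0))]
    refine integral_congr_ae (ae_of_all _ fun x => ?_)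
    show Real.cos (2 * Real.pi * (r * x.1)) =
      (Complex.exp (Complex.I * ((-(2 * Real.pi * (r * x.1 + 0 * x.2)) : ℝ) : ℂ))).re
    rw [mul_comm Complex.I, Complex.exp_ofReal_mul_I_re, Real.cos_neg, zero_mul, add_zero]
  rw [h1]
  exact RCLike.re_le_norm _

/-- The mass near the grid is small. -/
theorem E_small (μ : Measure (ℝ × ℝ)) [IsFiniteMeasure μ] {K m : ℕ} (hK : 0 < K) (hm : 6 * K ≤ m)
    {c : ℝ} (hc0 : 0 ≤ c) (hc : ∀ r : ℤ, r ≠ 0 → ‖hat μ ((r : ℝ) * m, 0)‖ ≤ c) :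
    μ.real (E m) ≤ 4 * (μ.real univ / K + c) := by
  have hK0 : (0 : ℝ) < K := by exact_mod_cast hK
  have hm' : 6 * (K : ℝ) ≤ m := by exact_mod_cast hm
  have hm0 : (0 : ℝ) < m := by linarith
  set T : ℝ × ℝ → ℝ := fun p => ∑ k ∈ Finset.range K, ∑ l ∈ Finset.range K,
    Real.cos (2 * Real.pi * ((((k : ℤ) - (l : ℤ) : ℤ) : ℝ) * m * p.1)) with hT
  have hT1 : ∀ p, T p = (∑ k ∈ Finset.range K, Real.cos (2 * Real.pi * (k * m * p.1))) ^ 2 +
      (∑ k ∈ Finset.range K, Real.sin (2 * Real.pi * (k * m * p.1))) ^ 2 := by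
    intro p
    rw [sq, sq, Finset.sum_mul_sum, Finset.sum_mul_sum, ← Finset.sum_add_distrib]
    refine Finset.sum_congr rfl fun k _ => ?_
    rw [← Finset.sum_add_distrib]
    refine Finset.sum_congr rfl fun l _ => ?_
    rw [← Real.cos_sub]
    congr 1
    push_cast
    ring
  have hint : Integrable T μ :=
    integrable_finsetSum _ fun k _ => integrable_finsetSum _ fun l _ => cos_int μ _
  have hI : ∫ p, T p ∂μ ≤ K * μ.real univ + K ^ 2 * c := by
    rw [hT, integral_finsetSum _ fun k _ => integrable_finsetSum _ fun l _ => cos_int μ _]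
    have h1 : ∀ k ∈ Finset.range K, ∫ p : ℝ × ℝ, ∑ l ∈ Finset.range K,
        Real.cos (2 * Real.pi * ((((k : ℤ) - (l : ℤ) : ℤ) : ℝ) * m * p.1)) ∂μ ≤
        μ.real univ + K * c := by
      intro k hk
      rw [integral_finsetSum _ fun l _ => cos_int μ _]
      have h2 : ∀ l ∈ Finset.range K, ∫ p : ℝ × ℝ,
          Real.cos (2 * Real.pi * ((((k : ℤ) - (l : ℤ) : ℤ) : ℝ) * m * p.1)) ∂μ ≤
          (if l = k then μ.real univ else 0) + c := by
        intro l _
        split_ifs with h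
        · subst h
          have : ∀ p : ℝ × ℝ,
              Real.cos (2 * Real.pi * ((((l : ℤ) - (l : ℤ) : ℤ) : ℝ) * m * p.1)) = 1 := by
            intro p; rw [sub_self]; simp
          simp only [this]
          rw [integral_const, smul_eq_mul, mul_one]
          linarith
        · have h3 : ((k : ℤ) - (l : ℤ)) ≠ 0 := by omega
          have := (cos_le_hat μ ((((k : ℤ) - (l : ℤ) : ℤ) : ℝ) * m)).trans (hc _ h3)
          linarith
      refine (Finset.sum_le_sum h2).trans ?_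
      rw [Finset.sum_add_distrib, Finset.sum_ite_eq' (Finset.range K) k, if_pos hk]
      simp
    refine (Finset.sum_le_sum h1).trans ?_
    rw [Finset.sum_const, Finset.card_range, nsmul_eq_mul]
    apply le_of_eq
    ring
  have hpt : ∀ p, (E m).indicator (fun _ => (K : ℝ) ^ 2 / 4) p ≤ T p := by
    intro p
    rw [hT1]
    by_cases hp : p ∈ E m
    · rw [indicator_of_mem hp]
      obtain ⟨i, hi⟩ := mem_iUnion.mp hp
      have hi1 : (i : ℝ) / m ≤ p.1 := hi.1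
      have hi2 : p.1 ≤ (i : ℝ) / m + 1 / (m : ℝ) ^ 2 := hi.2
      have h1 : ∀ k ∈ Finset.range K, (1 / 2 : ℝ) ≤ Real.cos (2 * Real.pi * (k * m * p.1)) := by
        intro k hk
        rw [Finset.mem_range] at hk
        have hk' : (k : ℝ) ≤ K := by exact_mod_cast hk.le
        set s : ℝ := p.1 - (i : ℝ) / m with hs
        have hs0 : 0 ≤ s := by linarith
        have hs1 : s ≤ 1 / (m : ℝ) ^ 2 := by linarith
        have e1 : 2 * Real.pi * (k * m * p.1) = 2 * Real.pi * (k * m * s) +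
            ((k * i : ℕ) : ℝ) * (2 * Real.pi) := by
          rw [hs]; push_cast; field_simp; ring
        rw [e1, Real.cos_add_nat_mul_two_pi]
        have h2 : (k : ℝ) * m * s ≤ 1 / 6 := by
          have h3 : (m : ℝ) * s ≤ 1 / m := by
            have := mul_le_mul_of_nonneg_left hs1 hm0.le
            have e2 : (m : ℝ) * (1 / (m : ℝ) ^ 2) = 1 / m := by field_simp
            linarith
          have h4 : (k : ℝ) * (m * s) ≤ K * (1 / m) :=
            mul_le_mul hk' h3 (by positivity) hK0.le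
          have h5 : (K : ℝ) * (1 / m) ≤ 1 / 6 := by
            rw [mul_one_div, div_le_div_iff₀ hm0 (by norm_num)]
            linarith
          linarith
        have h6 : 0 ≤ (k : ℝ) * m * s := by positivity
        rw [← Real.cos_pi_div_three]
        refine Real.cos_le_cos_of_nonneg_of_le_pi (by positivity) ?_ ?_
        · linarith [Real.pi_pos]
        · have := mul_le_mul_of_nonneg_left h2 (show (0 : ℝ) ≤ 2 * Real.pi by positivity)
          linarith
      have h2 : (K : ℝ) / 2 ≤ ∑ k ∈ Finset.range K, Real.cos (2 * Real.pi * (k * m * p.1)) := by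
        calc (K : ℝ) / 2 = ∑ k ∈ Finset.range K, (1 / 2 : ℝ) := by
              rw [Finset.sum_const, Finset.card_range, nsmul_eq_mul]; ring
          _ ≤ _ := Finset.sum_le_sum h1
      have h3 := pow_le_pow_left₀ (by positivity) h2 2
      have h4 := sq_nonneg (∑ k ∈ Finset.range K, Real.sin (2 * Real.pi * (k * m * p.1)))
      have e : ((K : ℝ) / 2) ^ 2 = (K : ℝ) ^ 2 / 4 := by ring
      linarith
    · rw [indicator_of_notMem hp]
      positivity
  have h1 : (K : ℝ) ^ 2 / 4 * μ.real (E m) ≤ K * μ.real univ + K ^ 2 * c := by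
    refine le_trans (le_of_eq ?_) ((integral_mono ((integrable_const _).indicator (E_meas m)) hint
      hpt).trans hI)
    rw [integral_indicator_const _ (E_meas m), smul_eq_mul, mul_comm]
  have h2 : μ.real (E m) ≤ (K * μ.real univ + K ^ 2 * c) / ((K : ℝ) ^ 2 / 4) := by
    rw [le_div_iff₀ (by positivity)]
    linarith
  refine h2.trans (le_of_eq ?_)
  field_simp

/-- The tolerance. -/
def rho (m : ℕ) : ℝ := 1 / ((m : ℝ) + 1) ^ (m + 2)

theorem rho_pos (m : ℕ) : 0 < rho m := by unfold rho; positivity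

theorem rho_mul {m : ℕ} (hm : 0 < m) : (m : ℝ) ^ m * m * rho m ≤ 1 / m := by
  have hm0 : (0 : ℝ) < m := by exact_mod_cast hm
  unfold rho
  rw [mul_one_div, div_le_div_iff₀ (by positivity) hm0, one_mul]
  calc (m : ℝ) ^ m * m * m = (m : ℝ) ^ (m + 2) := by ring
    _ ≤ ((m : ℝ) + 1) ^ (m + 2) := pow_le_pow_left₀ hm0.le (by linarith) _

theorem no_rajchman {b V : ℝ → ℝ} {ε : ℕ → ℝ} (hV1 : StrictMonoOn V (Icc 0 1))
    (hV2 : ∀ t ∈ Icc (0 : ℝ) 1, V t ∈ Icc (0 : ℝ) 1)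
    (hV3 : ∀ M : ℕ, ∃ m : ℕ, M ≤ m ∧ 0 < m ∧ ∀ i : ℕ, i < m →
      V (((i : ℝ) + 1) / m) - V ((i : ℝ) / m + 1 / (m : ℝ) ^ 2) < ε m)
    (hb : ∀ᶠ m in atTop, ∀ s ∈ Icc (0 : ℝ) 1, ∀ t ∈ Icc (0 : ℝ) 1, |s - t| ≤ ε m →
      |b s - b t| ≤ rho m)
    (μ : Measure (ℝ × ℝ)) [IsFiniteMeasure μ] (hμ : μ ≠ 0)
    (hsupp : ∀ᵐ p ∂μ, p.1 ∈ Icc (0 : ℝ) 1 ∧ p.2 = b (V p.1))
    (hR : Tendsto (hat μ) (cocompact (ℝ × ℝ)) (𝓝 0)) : False := by
  set M : ℝ := μ.real univ with hM
  have hM0 : 0 < M := by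
    rw [hM, measureReal_def]
    exact ENNReal.toReal_pos (by simpa using hμ) (measure_ne_top _ _)
  -- smallness of the transform
  have hR' : ∀ᶠ ξ in cocompact (ℝ × ℝ), ‖hat μ ξ‖ < M / 100 := by
    have := (tendsto_zero_iff_norm_tendsto_zero.mp hR).eventually
      (gt_mem_nhds (show (0 : ℝ) < M / 100 by positivity))
    exact this
  rw [← Metric.cobounded_eq_cocompact, ← comap_norm_atTop, eventually_comap] at hR'
  obtain ⟨R, hR''⟩ := eventually_atTop.mp hR'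
  have hRR : ∀ ξ : ℝ × ℝ, R ≤ ‖ξ‖ → ‖hat μ ξ‖ < M / 100 := fun ξ h => hR'' ‖ξ‖ h ξ rfl
  obtain ⟨m₀, hm₀⟩ := eventually_atTop.mp hb
  obtain ⟨R', hR'⟩ := exists_nat_ge R
  obtain ⟨m, hm, hmpos, hgap⟩ := hV3 (max m₀ (max R' 1000))
  have hm1 : m₀ ≤ m := (le_max_left _ _).trans hm
  have hm2 : R' ≤ m := ((le_max_left _ _).trans (le_max_right _ _)).trans hm
  have hm3 : 1000 ≤ m := ((le_max_right _ _).trans (le_max_right _ _)).trans hm
  have hmR : R ≤ m := hR'.trans (by exact_mod_cast hm2)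
  have hm0 : (0 : ℝ) < m := by exact_mod_cast hmpos
  have hm1000 : (1000 : ℝ) ≤ m := by exact_mod_cast hm3
  have hmod := hm₀ m hm1
  -- the mass near the grid
  have hE : μ.real (E m) ≤ 4 * (M / (100 : ℕ) + M / 100) := by
    refine E_small μ (by norm_num) (by omega) (by positivity) fun r hr => ?_
    refine (hRR _ ?_).le
    have h1 : (1 : ℝ) ≤ |(r : ℝ)| := by exact_mod_cast Int.one_le_abs hr
    have h2 : |(r : ℝ) * m| ≤ ‖((r : ℝ) * m, (0 : ℝ))‖ := by
      exact norm_fst_le ((r : ℝ) * m, (0 : ℝ))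
    rw [abs_mul, abs_of_pos hm0] at h2
    nlinarith
  push_cast at hE
  -- Dirichlet
  obtain ⟨q, hq1, hq2, hq3⟩ := dirichlet m m hmpos fun i : Fin m =>
    m * b (V (((i : ℕ) + 1 : ℝ) / m))
  have hq1' : (1 : ℝ) ≤ q := by exact_mod_cast hq1
  have hq2' : (q : ℝ) ≤ (m : ℝ) ^ m := by exact_mod_cast hq2
  set η : ℝ := q * m with hη
  have hη0 : (m : ℝ) ≤ η := by rw [hη]; nlinarith
  have hηρ : η * rho m ≤ 1 / m := by
    refine le_trans ?_ (rho_mul hmpos)
    refine mul_le_mul_of_nonneg_right ?_ (rho_pos m).le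
    exact mul_le_mul_of_nonneg_right hq2' hm0.le
  have hpt : ∀ᵐ p ∂μ, ‖Complex.exp (Complex.I *
      ((-(2 * Real.pi * ((0 : ℝ) * p.1 + η * p.2)) : ℝ) : ℂ)) - 1‖ ≤
      4 * Real.pi / m + (E m).indicator (fun _ => (2 : ℝ)) p := by
    filter_upwards [hsupp] with p hp
    by_cases hpE : p ∈ E m
    · rw [indicator_of_mem hpE]
      have h1 := norm_sub_le (Complex.exp (Complex.I *
        ((-(2 * Real.pi * ((0 : ℝ) * p.1 + η * p.2)) : ℝ) : ℂ))) 1
      rw [norm_e, norm_one] at h1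
      have : (0 : ℝ) ≤ 4 * Real.pi / m := by positivity
      linarith
    · rw [indicator_of_notMem hpE, add_zero]
      obtain ⟨⟨hp0, hp1⟩, hp2⟩ := hp
      set i := ⌊(m : ℝ) * p.1⌋₊ with hi
      have hi1 : (i : ℝ) ≤ m * p.1 := Nat.floor_le (by positivity)
      have hi2 : (m : ℝ) * p.1 < i + 1 := Nat.lt_floor_add_one _
      have hi3 : (i : ℝ) / m ≤ p.1 := by rw [div_le_iff₀ hm0]; linarith
      have hi4 : p.1 ≤ ((i : ℝ) + 1) / m := by rw [le_div_iff₀ hm0]; linarith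
      have hi5 : (i : ℝ) / m + 1 / (m : ℝ) ^ 2 < p.1 := by
        by_contra h
        exact hpE (mem_iUnion.mpr ⟨i, ⟨hi3, not_lt.mp h⟩⟩)
      have him : i < m := by
        by_contra h
        have h' : (m : ℝ) ≤ i := by exact_mod_cast not_lt.mp h
        have : 1 ≤ (i : ℝ) / m := by rw [le_div_iff₀ hm0]; linarith
        have : (0 : ℝ) < 1 / (m : ℝ) ^ 2 := by positivity
        linarith
      have him' : (i : ℝ) + 1 ≤ m := by exact_mod_cast him
      have hr : ((i : ℝ) + 1) / m ∈ Icc (0 : ℝ) 1 :=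
        ⟨by positivity, by rw [div_le_one hm0]; exact him'⟩
      have hl : (i : ℝ) / m + 1 / (m : ℝ) ^ 2 ∈ Icc (0 : ℝ) 1 :=
        ⟨by positivity, hi5.le.trans hp1⟩
      have hpm : p.1 ∈ Icc (0 : ℝ) 1 := ⟨hp0, hp1⟩
      have hv1 : V p.1 ≤ V (((i : ℝ) + 1) / m) := hV1.monotoneOn hpm hr hi4
      have hv2 : V ((i : ℝ) / m + 1 / (m : ℝ) ^ 2) ≤ V p.1 := hV1.monotoneOn hl hpm hi5.le
      have hv3 := hgap i him
      have hv4 : |V p.1 - V (((i : ℝ) + 1) / m)| ≤ ε m := by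
        rw [abs_le]; constructor <;> linarith
      have hb1 := hmod _ (hV2 _ hpm) _ (hV2 _ hr) hv4
      obtain ⟨z, hz⟩ := hq3 ⟨i, him⟩
      have hz' : |(q : ℝ) * (m * b (V (((i : ℝ) + 1) / m))) - z| ≤ 1 / m := hz
      have hzz : |η * p.2 - z| ≤ 2 / m := by
        have e1 : η * p.2 - z = ((q : ℝ) * (m * b (V (((i : ℝ) + 1) / m))) - z) +
            η * (b (V p.1) - b (V (((i : ℝ) + 1) / m))) := by
          rw [hp2, hη]; ring
        rw [e1]
        refine (abs_add_le _ _).trans ?_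
        have h2 : |η * (b (V p.1) - b (V (((i : ℝ) + 1) / m)))| ≤ 1 / m := by
          rw [abs_mul, abs_of_nonneg (by linarith : (0 : ℝ) ≤ η)]
          exact (mul_le_mul_of_nonneg_left hb1 (by linarith)).trans hηρ
        have : (2 : ℝ) / m = 1 / m + 1 / m := by ring
        linarith
      have e2 : Complex.exp (Complex.I *
          ((-(2 * Real.pi * ((0 : ℝ) * p.1 + η * p.2)) : ℝ) : ℂ)) =
          Complex.exp (Complex.I * ((-(2 * Real.pi * (η * p.2 - z)) : ℝ) : ℂ)) := by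
        rw [Complex.exp_eq_exp_iff_exists_int]
        refine ⟨-z, ?_⟩
        push_cast
        ring
      rw [e2]
      refine Real.norm_exp_I_mul_ofReal_sub_one_le.trans ?_
      rw [Real.norm_eq_abs, abs_neg, abs_mul, abs_of_pos (by positivity : (0 : ℝ) < 2 * Real.pi)]
      have := mul_le_mul_of_nonneg_left hzz (by positivity : (0 : ℝ) ≤ 2 * Real.pi)
      have e3 : 2 * Real.pi * (2 / m) = 4 * Real.pi / m := by ring
      linarith
  -- the contradiction
  have h1 : ‖hat μ (0, η) - M‖ ≤ 4 * Real.pi / m * M + 2 * μ.real (E m) := by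
    have e1 : hat μ (0, η) - M = ∫ p : ℝ × ℝ, (Complex.exp (Complex.I *
        ((-(2 * Real.pi * ((0 : ℝ) * p.1 + η * p.2)) : ℝ) : ℂ)) - 1) ∂μ := by
      rw [integral_sub (e_int μ (0, η)) (integrable_const _), integral_const]
      simp [hat, hM]
    rw [e1]
    refine (norm_integral_le_integral_norm _).trans ?_
    have hi2 : Integrable (fun p : ℝ × ℝ => 4 * Real.pi / m +
        (E m).indicator (fun _ => (2 : ℝ)) p) μ :=
      (integrable_const _).add ((integrable_const _).indicator (E_meas m))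
    refine (integral_mono_ae ((e_int μ (0, η)).sub (integrable_const _)).norm hi2 hpt).trans ?_
    rw [integral_add (integrable_const _) ((integrable_const _).indicator (E_meas m)),
      integral_const, integral_indicator_const _ (E_meas m), smul_eq_mul, smul_eq_mul]
    apply le_of_eq
    ring
  have h2 : ‖hat μ (0, η)‖ < M / 100 := by
    refine hRR _ ?_
    have := norm_snd_le ((0 : ℝ), η)
    rw [Real.norm_eq_abs] at this
    have h3 : η ≤ |η| := le_abs_self _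
    have h4 : |η| ≤ ‖((0 : ℝ), η)‖ := this
    linarith
  have h3 : M ≤ ‖hat μ (0, η)‖ + ‖hat μ (0, η) - M‖ := by
    have h4 := norm_sub_norm_le ((M : ℂ)) (hat μ (0, η))
    rw [Complex.norm_real, Real.norm_eq_abs, abs_of_pos hM0, norm_sub_rev] at h4
    linarith
  have h4 : 4 * Real.pi / m * M ≤ M / 50 := by
    have h5 : 4 * Real.pi / m ≤ 1 / 50 := by
      rw [div_le_div_iff₀ hm0 (by norm_num)]
      have := Real.pi_lt_four
      nlinarith
    have := mul_le_mul_of_nonneg_right h5 hM0.le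
    linarith
  linarith

end

end Pool.Agent.Q210.RJ
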