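import Mathlib
import Pool.Agent.Q210.RJ.Flat
import Pool.Agent.Q210.RJ.Four

/-!
# A modulus of continuity valid for all Brownian motions
-/

open Filter Topology Set MeasureTheory ProbabilityTheory
open ProbabilityTheory.BrownianReal
open scoped NNReal ENNReal

universe u

namespace Pool.Agent.Q210.RJ

noncomputable section

/-- A dense sequence of times in `[0,1]`. -/
def dd : ℕ → Icc (0 : ℝ≥0) 1 := TopologicalSpace.denseSeq (Icc (0 : ℝ≥0) 1)

/-- The paths (at the times `dd`) with small oscillations. -/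
def A (δ ρ : ℝ) : Set (ℕ → ℝ) :=
  {x | ∀ i j : ℕ, |((dd i : ℝ≥0) : ℝ) - ((dd j : ℝ≥0) : ℝ)| ≤ δ → |x i - x j| ≤ ρ}

theorem A_meas (δ ρ : ℝ) : MeasurableSet (A δ ρ) := by
  have : A δ ρ = ⋂ (i : ℕ) (j : ℕ)
      (_ : |((dd i : ℝ≥0) : ℝ) - ((dd j : ℝ≥0) : ℝ)| ≤ δ), {x : ℕ → ℝ | |x i - x j| ≤ ρ} := by
    ext x
    simp only [mem_iInter]
    exact Iff.rfl
  rw [this]
  refine MeasurableSet.iInter fun i => MeasurableSet.iInter fun j => MeasurableSet.iInter fun _ => ?_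
  exact measurableSet_le (by fun_prop) measurable_const

variable {Ω : Type u} {mΩ : MeasurableSpace Ω}

/-- The path at the times `dd`. -/
def pth (B : ℝ≥0 → Ω → ℝ) (ω : Ω) : ℕ → ℝ := fun k => B (dd k) ω

theorem pth_aem {B : ℝ≥0 → Ω → ℝ} {P : Measure Ω} (hB : IsPreBrownianReal B P) :
    AEMeasurable (pth B) P := aemeasurable_pi_iff.mpr fun k => hB.aemeasurable (dd k)

/-- The times in `J`. -/
def tim (J : Finset ℕ) : Finset ℝ≥0 := by classical exact J.image fun k => (dd k : ℝ≥0)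

theorem mem_tim {J : Finset ℕ} (k : J) : (dd k : ℝ≥0) ∈ tim J := by
  classical
  exact Finset.mem_image_of_mem _ k.2

/-- Reindexing. -/
def gJ (J : Finset ℕ) (x : tim J → ℝ) : J → ℝ := fun k => x ⟨dd k, mem_tim k⟩

theorem gJ_meas (J : Finset ℕ) : Measurable (gJ J) :=
  measurable_pi_lambda _ fun _ => measurable_pi_apply _

theorem law_lim {B : ℝ≥0 → Ω → ℝ} {P : Measure Ω} (hB : IsPreBrownianReal B P) :
    IsProjectiveLimit (P.map (pth B)) fun J : Finset ℕ => (projectiveFamily (tim J)).map (gJ J) := by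
  intro J
  show (P.map (pth B)).map J.restrict = (projectiveFamily (tim J)).map (gJ J)
  rw [AEMeasurable.map_map_of_aemeasurable (Finset.measurable_restrict J).aemeasurable (pth_aem hB),
    ← (hB.hasLaw (tim J)).map_eq, AEMeasurable.map_map_of_aemeasurable (gJ_meas J).aemeasurable
      (hB.hasLaw (tim J)).aemeasurable]
  rfl

instance (J : Finset ℕ) : IsProbabilityMeasure ((projectiveFamily (tim J)).map (gJ J)) :=
  Measure.isProbabilityMeasure_map (gJ_meas J).aemeasurable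

theorem law_unique {Ω' : Type u} {mΩ' : MeasurableSpace Ω'} {B : ℝ≥0 → Ω → ℝ} {P : Measure Ω}
    (hB : IsPreBrownianReal B P) {B' : ℝ≥0 → Ω' → ℝ} {P' : Measure Ω'}
    (hB' : IsPreBrownianReal B' P') : P.map (pth B) = P'.map (pth B') :=
  (law_lim hB).unique (law_lim hB')

theorem uc {b : ℝ≥0 → ℝ} (hb : Continuous b) {ρ : ℝ} (hρ : 0 < ρ) : ∃ δ > 0,
    ∀ s ∈ Icc (0 : ℝ≥0) 1, ∀ t ∈ Icc (0 : ℝ≥0) 1, |(s : ℝ) - t| ≤ δ → |b s - b t| ≤ ρ := by
  have h1 := isCompact_Icc.uniformContinuousOn_of_continuous (hb.continuousOn (s := Icc (0 : ℝ≥0) 1))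
  obtain ⟨δ, hδ, h2⟩ := Metric.uniformContinuousOn_iff.mp h1 ρ hρ
  refine ⟨δ / 2, by positivity, fun s hs t ht hst => ?_⟩
  have h3 : dist s t < δ := by
    rw [NNReal.dist_eq]
    exact lt_of_le_of_lt hst (by linarith)
  exact (h2 s hs t ht h3).le

theorem mod_small {B : ℝ≥0 → Ω → ℝ} {P : Measure Ω} (hB : IsBrownianReal B P) {ρ : ℝ}
    (hρ : 0 < ρ) {η : ℝ≥0∞} (hη : 0 < η) : ∃ δ > 0, P.map (pth B) (A δ ρ)ᶜ ≤ η := by
  have : IsProbabilityMeasure P := hB.isGaussianProcess.isProbabilityMeasure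
  have : IsProbabilityMeasure (P.map (pth B)) :=
    Measure.isProbabilityMeasure_map (pth_aem hB.toIsPreBrownianReal)
  have hmeas : ∀ k : ℕ, MeasurableSet (A (1 / ((k : ℝ) + 1)) ρ)ᶜ := fun k => (A_meas _ _).compl
  have hanti : Antitone fun k : ℕ => (A (1 / ((k : ℝ) + 1)) ρ)ᶜ := by
    intro k l hkl
    refine compl_subset_compl.mpr fun x hx i j hij => hx i j (hij.trans ?_)
    have : (k : ℝ) ≤ l := by exact_mod_cast hkl
    exact one_div_le_one_div_of_le (by positivity) (by linarith)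
  have htend := tendsto_measure_iInter_atTop (μ := P.map (pth B))
    (fun k => (hmeas k).nullMeasurableSet) hanti ⟨0, measure_ne_top _ _⟩
  have hzero : P.map (pth B) (⋂ k : ℕ, (A (1 / ((k : ℝ) + 1)) ρ)ᶜ) = 0 := by
    rw [measure_eq_zero_iff_ae_notMem]
    rw [ae_map_iff (pth_aem hB.toIsPreBrownianReal)]
    · filter_upwards [hB.cont] with ω hω hmem
      obtain ⟨δ, hδ, h⟩ := uc hω hρ
      obtain ⟨k, hk⟩ := exists_nat_one_div_lt hδ
      exact mem_iInter.mp hmem k fun i j hij => h _ (dd i).2 _ (dd j).2 (hij.trans hk.le)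
    · exact (MeasurableSet.iInter hmeas).compl
  rw [hzero] at htend
  obtain ⟨k, hk⟩ := (htend.eventually (gt_mem_nhds hη)).exists
  exact ⟨1 / ((k : ℝ) + 1), by positivity, hk.le⟩

/-- One modulus for all Brownian motions. -/
theorem exists_mod : ∃ ε : ℕ → ℝ, (∀ m, 0 < ε m) ∧ ∀ (Ω : Type u) (_ : MeasurableSpace Ω)
    (P : Measure Ω) (B : ℝ≥0 → Ω → ℝ), IsBrownianReal B P → ∀ m,
      P.map (pth B) (A (ε m) (rho m))ᶜ ≤ (2 : ℝ≥0∞)⁻¹ ^ m := by
  by_cases h : ∃ (Ω : Type u) (_ : MeasurableSpace Ω) (P : Measure Ω) (B : ℝ≥0 → Ω → ℝ),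
      IsBrownianReal B P
  · obtain ⟨Ω, mΩ, P, B, hB⟩ := h
    choose ε hε1 hε2 using fun m => mod_small hB (rho_pos m)
      (show (0 : ℝ≥0∞) < (2 : ℝ≥0∞)⁻¹ ^ m from ENNReal.pow_pos (by simp) m)
    refine ⟨ε, hε1, fun Ω' mΩ' P' B' hB' m => ?_⟩
    rw [law_unique hB'.toIsPreBrownianReal hB.toIsPreBrownianReal]
    exact hε2 m
  · push Not at h
    exact ⟨fun _ => 1, fun _ => one_pos, fun Ω mΩ P B hB => absurd hB (h Ω mΩ P B)⟩

theorem ae_mod {ε : ℕ → ℝ} (hε : ∀ m, 0 < ε m) {B : ℝ≥0 → Ω → ℝ} {P : Measure Ω}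
    (hB : IsBrownianReal B P) (h : ∀ m, P.map (pth B) (A (ε m) (rho m))ᶜ ≤ (2 : ℝ≥0∞)⁻¹ ^ m) :
    ∀ᵐ ω ∂P, ∀ᶠ m in atTop, ∀ s ∈ Icc (0 : ℝ) 1, ∀ t ∈ Icc (0 : ℝ) 1, |s - t| ≤ ε m / 2 →
      |B s.toNNReal ω - B t.toNNReal ω| ≤ rho m := by
  have hsum : ∑' m, P.map (pth B) (A (ε m) (rho m))ᶜ ≠ ∞ := by
    refine ne_top_of_le_ne_top ?_ (ENNReal.tsum_le_tsum h)
    rw [ENNReal.tsum_geometric]
    simp
  have hbc := ae_of_ae_map (pth_aem hB.toIsPreBrownianReal) (ae_eventually_notMem hsum)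
  filter_upwards [hbc, hB.cont] with ω hω hc
  filter_upwards [hω] with m hm
  have hm' : pth B ω ∈ A (ε m) (rho m) := by
    by_contra h'
    exact hm h'
  intro s hs t ht hst
  -- approximate
  set b : ℝ≥0 → ℝ := fun r => B r ω with hb
  have hs' : s.toNNReal ∈ Icc (0 : ℝ≥0) 1 := ⟨zero_le, by
    rw [Real.toNNReal_le_iff_le_coe]; exact_mod_cast hs.2⟩
  have ht' : t.toNNReal ∈ Icc (0 : ℝ≥0) 1 := ⟨zero_le, by
    rw [Real.toNNReal_le_iff_le_coe]; exact_mod_cast ht.2⟩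
  have key : ∀ S T : Icc (0 : ℝ≥0) 1, |((S : ℝ≥0) : ℝ) - ((T : ℝ≥0) : ℝ)| < ε m →
      |b S - b T| ≤ rho m := by
    intro S T hST
    by_contra hcon
    push Not at hcon
    have hopen : IsOpen {z : Icc (0 : ℝ≥0) 1 × Icc (0 : ℝ≥0) 1 |
        |((z.1 : ℝ≥0) : ℝ) - ((z.2 : ℝ≥0) : ℝ)| < ε m ∧ rho m < |b z.1 - b z.2|} := by
      have c1 : Continuous fun z : Icc (0 : ℝ≥0) 1 × Icc (0 : ℝ≥0) 1 =>
          |((z.1 : ℝ≥0) : ℝ) - ((z.2 : ℝ≥0) : ℝ)| := by fun_prop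
      have c2 : Continuous fun z : Icc (0 : ℝ≥0) 1 × Icc (0 : ℝ≥0) 1 => |b z.1 - b z.2| :=
        ((hc.comp (continuous_subtype_val.comp continuous_fst)).sub
          (hc.comp (continuous_subtype_val.comp continuous_snd))).abs
      exact (isOpen_lt c1 continuous_const).inter (isOpen_lt continuous_const c2)
    have hdense : DenseRange (Prod.map dd dd) :=
      (TopologicalSpace.denseRange_denseSeq _).prodMap (TopologicalSpace.denseRange_denseSeq _)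
    obtain ⟨⟨i, j⟩, hij⟩ := hdense.exists_mem_open hopen ⟨(S, T), hST, hcon⟩
    exact absurd (hm' i j hij.1.le) (not_le.mpr hij.2)
  refine key ⟨_, hs'⟩ ⟨_, ht'⟩ ?_
  show |((s.toNNReal : ℝ≥0) : ℝ) - ((t.toNNReal : ℝ≥0) : ℝ)| < ε m
  rw [Real.coe_toNNReal s hs.1, Real.coe_toNNReal t ht.1]
  have := hε m
  linarith

end

end Pool.Agent.Q210.RJ
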